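import Pool.Agent.helper55.FPZ.Spec

set_option autoImplicit false

namespace Pool.Agent.FPZ

open Matrix Polynomial Pool.Agent.PL Pool.Agent.X4

/-- a matrix identity -/
theorem OM_comm {R : Type} [CommRing R] {N : ℕ} (g gi r zc d : Matrix (Fin N) (Fin N) R)
    (h1 : g * gi = 1) (h2 : gi * g = 1) (hz : g * d = zc * g) (hc : r * zc = zc * r) :
    (gi * r * g) * d = d * (gi * r * g) := by
  have hd : d = gi * zc * g := by
    calc d = (gi * g) * d := by rw [h2, Matrix.one_mul]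
      _ = gi * (g * d) := by rw [Matrix.mul_assoc]
      _ = gi * zc * g := by rw [hz, Matrix.mul_assoc]
  calc (gi * r * g) * d = gi * r * (g * d) := by rw [Matrix.mul_assoc]
    _ = gi * r * (zc * g) := by rw [hz]
    _ = gi * (r * zc) * g := by simp only [Matrix.mul_assoc]
    _ = gi * (zc * r) * g := by rw [hc]
    _ = (gi * zc) * (1 * r) * g := by simp only [Matrix.mul_assoc, Matrix.one_mul]
    _ = (gi * zc) * ((g * gi) * r) * g := by rw [h1]
    _ = (gi * zc * g) * (gi * r * g) := by simp only [Matrix.mul_assoc]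
    _ = d * (gi * r * g) := by rw [← hd]

/-- OM: the tensors `Ω`. -/
theorem OM (hXI : XI_stmt) (hHOD : HOD_stmt) (hFX : FX_stmt) (hTP : TP_stmt) : OM_stmt := by
  intro F _ _ _ l hl hl1 N E D hcont Γ _ _ _ ga frob hAlg G hG hdiag m t ht I hI
  obtain ⟨M, w, hE⟩ := hXI F N (dg D G) m I
  refine ⟨M, w, hE, ?_⟩
  have hspan := hHOD F N E D hcont G hG hdiag m t ht I hI M w hE
  have hPdet : IsUnit (D.P D.base).det := (Matrix.isUnit_iff_isUnit_det _).mp (D.isUnit D.base)
  have hGdet : IsUnit G.det := (Matrix.isUnit_iff_isUnit_det _).mp hG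
  have hmul : ∀ u w' : Matrix (Fin N) (Fin N) F, tp (u * w') M = tp u M * tp w' M :=
    fun u w' => (hTP N M F u w').1
  have hone : tp (1 : Matrix (Fin N) (Fin N) F) M = 1 := (hTP N M F 1 1).2
  set P := D.P D.base with hP
  set g := P * G with hg
  set gi := G⁻¹ * P⁻¹ with hgi
  have h1 : g * gi = 1 := by
    rw [hg, hgi, Matrix.mul_assoc, ← Matrix.mul_assoc G, Matrix.mul_nonsing_inv _ hGdet,
      Matrix.one_mul, Matrix.mul_nonsing_inv _ hPdet]
  have h2 : gi * g = 1 := by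
    rw [hg, hgi, Matrix.mul_assoc, ← Matrix.mul_assoc P⁻¹, Matrix.nonsing_inv_mul _ hPdet,
      Matrix.one_mul, Matrix.nonsing_inv_mul _ hGdet]
  have hv : tp P M *ᵥ (tp G M *ᵥ w) = tp g M *ᵥ w := by
    rw [Matrix.mulVec_mulVec, hg, hmul]
  have hvne : tp P M *ᵥ (tp G M *ᵥ w) ≠ 0 := by
    intro h0
    apply hE.ne
    rw [hv] at h0
    have h3 : tp gi M *ᵥ (tp g M *ᵥ w) = w := by
      rw [Matrix.mulVec_mulVec, ← hmul, h2, hone, Matrix.one_mulVec]
    rw [h0, Matrix.mulVec_zero] at h3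
    exact h3.symm
  have hvspan : tp P M *ᵥ (tp G M *ᵥ w) ∈ Submodule.span F (D.cls D.base M '' Ho D M) := by
    have h3 : (Matrix.mulVecLin (tp P M)) (tp G M *ᵥ w) ∈
        (Submodule.span F (up F '' Ho D M)).map (Matrix.mulVecLin (tp P M)) :=
      Submodule.mem_map_of_mem hspan
    rw [Submodule.map_span, Set.image_image] at h3
    exact h3
  have heig : ∀ σ : Γ, ∃ x : F, tp (ga.R σ) M *ᵥ (tp P M *ᵥ (tp G M *ᵥ w)) =
      x • (tp P M *ᵥ (tp G M *ᵥ w)) := by
    intro σ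
    have hu : gi * ga.R σ * g ∈ CD (dg D G) := by
      intro d hd
      obtain ⟨z, hz, hzd⟩ := hd
      refine OM_comm g gi (ga.R σ) (P * cst F z * P⁻¹) (diagonal d) h1 h2 ?_ (hAlg.comm σ z hz)
      rw [hg]
      calc P * G * diagonal d = P * (G * diagonal d) := by rw [Matrix.mul_assoc]
        _ = P * (cst F z * G) := by rw [hzd]
        _ = P * cst F z * (1 * G) := by rw [Matrix.one_mul, Matrix.mul_assoc]
        _ = P * cst F z * ((P⁻¹ * P) * G) := by rw [Matrix.nonsing_inv_mul _ hPdet]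
        _ = P * cst F z * P⁻¹ * (P * G) := by simp only [Matrix.mul_assoc]
    obtain ⟨x, hx⟩ := hE.grp _ hu
    refine ⟨x, ?_⟩
    rw [hv, Matrix.mulVec_mulVec, ← hmul]
    have h3 : ga.R σ * g = g * (gi * ga.R σ * g) := by
      calc ga.R σ * g = (1 * ga.R σ) * g := by rw [Matrix.one_mul]
        _ = ((g * gi) * ga.R σ) * g := by rw [h1]
        _ = g * (gi * ga.R σ * g) := by simp only [Matrix.mul_assoc]
    rw [h3, hmul, ← Matrix.mulVec_mulVec, hx, Matrix.mulVec_smul]
  intro σ hσ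
  exact hFX F l hl hl1 N E D Γ ga frob hAlg M _ hvne hvspan heig σ hσ

end Pool.Agent.FPZ
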